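import Pool.Agent.H427R3.ZT.Riem
import Pool.Agent.H387R3.ZT.Stmts

/-! Project ZT, task (A). -/

set_option autoImplicit false

namespace Pool.Agent.H427R3.ZT

open Pool.Agent.H387R3.ZT

theorem taskA : TaskA := by
  intro k F K _ _ _ _ _ _ _ _ _ T hT hunr
  obtain ⟨b, hb, hb1⟩ := exists_trace_one (K := K) (VV_H1 hT) VV_H2 (by
    rintro W ⟨v, hv, hvW⟩ σ hσ
    exact hunr v hv W hvW.symm σ hσ)
  exact ⟨b, hb1, fun v hv W hW => hb W ⟨v, hv, hW.symm⟩⟩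

end Pool.Agent.H427R3.ZT
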