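import Mathlib

/-! Project ZT, tasks (A), (B): the power series part. -/

set_option autoImplicit false

namespace Pool.Agent.H427R3.ZT

open PowerSeries

section

variable {p : ℕ} [hp : Fact p.Prime] {n : ℕ}

theorem one_add_X_pow_add {R : Type*} [CommRing R] [CharP R p] (a b : ZMod (p ^ n)) :
    (X : R⟦X⟧) ^ (p ^ n) ∣ (1 + X) ^ (a + b).val - (1 + X) ^ a.val * (1 + X) ^ b.val := by
  have hpn : NeZero (p ^ n) := ⟨pow_ne_zero _ hp.out.ne_zero⟩
  have hch : CharP R⟦X⟧ p :=
    charP_of_injective_ringHom (f := (C : R →+* R⟦X⟧)) PowerSeries.C_injective p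
  have h1 : a.val + b.val = (a + b).val + p ^ n * ((a.val + b.val) / p ^ n) := by
    rw [ZMod.val_add]; exact (Nat.mod_add_div _ _).symm
  have h2 : ((1 : R⟦X⟧) + X) ^ (p ^ n) = 1 + X ^ (p ^ n) := by
    rw [add_pow_char_pow, one_pow]
  rw [← pow_add, h1, pow_add, pow_mul, h2]
  set q := (a.val + b.val) / p ^ n
  have h3 : (1 + (X : R⟦X⟧)) ^ (a + b).val - (1 + X) ^ (a + b).val * (1 + X ^ (p ^ n)) ^ q =
      (1 + X) ^ (a + b).val * (1 ^ q - (1 + X ^ (p ^ n)) ^ q) := by
    rw [one_pow]; ring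
  rw [h3]
  apply Dvd.dvd.mul_left
  refine Dvd.dvd.trans ?_ (sub_dvd_pow_sub_pow _ _ _)
  exact ⟨-1, by ring⟩

theorem isUnit_one_add_X {R : Type*} [CommRing R] (a : ℕ) : IsUnit ((1 + (X : R⟦X⟧)) ^ a) := by
  apply IsUnit.pow
  rw [PowerSeries.isUnit_iff_constantCoeff]
  simp

theorem map_dvd {R S : Type*} [CommRing R] [CommRing S] (f : R →+* S) {M : ℕ} {u : R⟦X⟧}
    (h : X ^ M ∣ u) : X ^ M ∣ PowerSeries.map f u := by
  obtain ⟨v, rfl⟩ := h
  exact ⟨PowerSeries.map f v, by rw [map_mul, map_pow, PowerSeries.map_X]⟩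

theorem exists_series {B : Type*} [CommRing B] [CharP B p] {G : Type*} [Group G] [Fintype G]
    (g : G → B →+* B) (hg : ∀ s t, g (s * t) = (g s).comp (g t))
    (Φ : G →* Multiplicative (ZMod (p ^ n))) (b : B) (hb : ∑ s, g s b = 1) :
    ∃ y w : B⟦X⟧, constantCoeff y = 1 ∧ constantCoeff w = 1 ∧
      w * y = PowerSeries.map (frobenius B p) y ∧
      (∀ t, X ^ (p ^ n) ∣ PowerSeries.map (g t) y - (1 + X) ^ (Multiplicative.toAdd (Φ t)).val * y) ∧
      ∀ t, X ^ (p ^ n) ∣ PowerSeries.map (g t) w - w := by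
  classical
  have hpn : NeZero (p ^ n) := ⟨pow_ne_zero _ hp.out.ne_zero⟩
  set e : ZMod (p ^ n) → B⟦X⟧ := fun a => (1 + X) ^ a.val with he
  set φ : G → ZMod (p ^ n) := fun s => Multiplicative.toAdd (Φ s) with hφ
  have hφmul : ∀ s t, φ (s * t) = φ s + φ t := fun s t => by simp [hφ]
  have hφinv : ∀ s, φ s⁻¹ = - φ s := fun s => by simp [hφ]
  set y : B⟦X⟧ := ∑ s, e (-φ s) * C (g s b) with hy
  have hmape : ∀ {S : Type _} [CommRing S] (f : B →+* S) (a : ZMod (p ^ n)),
      PowerSeries.map f (e a) = (1 + X) ^ a.val := by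
    intro S _ f a
    simp [he]
  have hy0 : constantCoeff y = 1 := by
    rw [hy, map_sum, ← hb]
    exact Finset.sum_congr rfl fun s _ => by simp [he]
  have h1 : ∀ t, X ^ (p ^ n) ∣ PowerSeries.map (g t) y - e (φ t) * y := by
    intro t
    have h2 : PowerSeries.map (g t) y = ∑ s, e (φ t + -φ s) * C (g s b) := by
      rw [hy, map_sum, ← Equiv.sum_comp (Equiv.mulLeft t) (fun s => e (φ t + -φ s) * C (g s b))]
      refine Finset.sum_congr rfl fun s _ => ?_
      rw [map_mul, PowerSeries.map_C, hmape]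
      simp only [Equiv.coe_mulLeft, he]
      rw [hφmul, hg]
      have h7 : φ t + -(φ t + φ s) = -φ s := by ring
      rw [h7]
      rfl
    rw [h2, hy, Finset.mul_sum, ← Finset.sum_sub_distrib]
    refine Finset.dvd_sum fun s _ => ?_
    have h3 : e (φ t + -φ s) * C (g s b) - e (φ t) * (e (-φ s) * C (g s b)) =
        (e (φ t + -φ s) - e (φ t) * e (-φ s)) * C (g s b) := by ring
    rw [h3]
    exact (one_add_X_pow_add _ _).mul_right _
  set w : B⟦X⟧ := PowerSeries.map (frobenius B p) y * y.invOfUnit 1 with hw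
  have hyy : y * y.invOfUnit 1 = 1 := PowerSeries.mul_invOfUnit _ _ (by rw [hy0]; rfl)
  have hwy : w * y = PowerSeries.map (frobenius B p) y := by
    rw [hw, mul_assoc, mul_comm _ y, hyy, mul_one]
  have hyu : IsUnit y := IsUnit.of_mul_eq_one _ hyy
  refine ⟨y, w, hy0, ?_, hwy, h1, ?_⟩
  · have := congrArg constantCoeff hwy
    rw [map_mul, hy0, mul_one] at this
    rw [this]
    have h5 := congrArg (frobenius B p) hy0
    rw [map_one] at h5
    rw [← h5, ← PowerSeries.coeff_zero_eq_constantCoeff_apply, PowerSeries.coeff_map,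
      PowerSeries.coeff_zero_eq_constantCoeff_apply]
  · intro t
    obtain ⟨r, hr⟩ := h1 t
    have h2 : PowerSeries.map (g t) y = e (φ t) * y + X ^ (p ^ n) * r := by
      rw [← hr]; ring
    have h3 : PowerSeries.map (g t) w * PowerSeries.map (g t) y =
        PowerSeries.map (frobenius B p) (PowerSeries.map (g t) y) := by
      rw [← map_mul, hwy]
      ext i
      simp [frobenius_def]
    have h8 : PowerSeries.map (frobenius B p) (e (φ t) * y + X ^ (p ^ n) * r) =
        e (φ t) * (w * y) + X ^ (p ^ n) * PowerSeries.map (frobenius B p) r := by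
      rw [map_add, map_mul, map_mul, hmape, ← hwy, map_pow (PowerSeries.map (frobenius B p)) X,
        PowerSeries.map_X]
    rw [h2, h8] at h3
    have h4 : (PowerSeries.map (g t) w - w) * (e (φ t) * y) =
        X ^ (p ^ n) * (PowerSeries.map (frobenius B p) r - PowerSeries.map (g t) w * r) := by
      linear_combination h3
    have h5 : X ^ (p ^ n) ∣ (PowerSeries.map (g t) w - w) * (e (φ t) * y) := ⟨_, h4⟩
    have hu : IsUnit (e (φ t) * y) := (isUnit_one_add_X _).mul hyu
    exact (hu.dvd_mul_right).1 h5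

theorem prod_eq {κ : Type*} [CommRing κ] [CharP κ p] {y w : κ⟦X⟧}
    (h : w * y = PowerSeries.map (frobenius κ p) y) (m : ℕ) :
    (∏ l ∈ Finset.range m, PowerSeries.map (iterateFrobenius κ p l) w) * y =
      PowerSeries.map (iterateFrobenius κ p m) y := by
  induction m with
  | zero =>
    rw [Finset.range_zero, Finset.prod_empty, one_mul, iterateFrobenius_zero]
    simp
  | succ m ih =>
    rw [Finset.prod_range_succ, mul_assoc, mul_comm (PowerSeries.map _ w) y, ← mul_assoc, ih,
      ← map_mul, mul_comm y w, h]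
    ext i
    simp only [PowerSeries.coeff_map, frobenius_def, iterateFrobenius_def]
    rw [← pow_mul, pow_succ']

theorem frob_series {B : Type*} [CommRing B] [CharP B p] {κ : Type*} [CommRing κ] [CharP κ p]
    {y w : B⟦X⟧} (hy : constantCoeff y = 1) (hw : w * y = PowerSeries.map (frobenius B p) y)
    {a : ℕ} {g : B →+* B} (h : X ^ (p ^ n) ∣ PowerSeries.map g y - (1 + X) ^ a * y)
    (red : B →+* κ) {m : ℕ} (hred : ∀ c, red (g c) = red c ^ (p ^ m)) :
    X ^ (p ^ n) ∣ (1 + X) ^ a -
      ∏ l ∈ Finset.range m, PowerSeries.map (iterateFrobenius κ p l) (PowerSeries.map red w) := by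
  have h1 : PowerSeries.map red w * PowerSeries.map red y =
      PowerSeries.map (frobenius κ p) (PowerSeries.map red y) := by
    rw [← map_mul, hw]
    ext i
    simp [frobenius_def]
  have h2 := prod_eq h1 m
  have h3 : PowerSeries.map red (PowerSeries.map g y) =
      PowerSeries.map (iterateFrobenius κ p m) (PowerSeries.map red y) := by
    ext i
    simp only [PowerSeries.coeff_map, iterateFrobenius_def]
    exact hred _
  have h4 := map_dvd red h
  rw [map_sub, map_mul, map_pow, map_add, map_one, PowerSeries.map_X, h3, ← h2, ← sub_mul] at h4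
  have hu : IsUnit (PowerSeries.map red y) := by
    rw [PowerSeries.isUnit_iff_constantCoeff]
    rw [← PowerSeries.coeff_zero_eq_constantCoeff_apply] at hy ⊢
    rw [PowerSeries.coeff_map, hy, map_one]
    exact isUnit_one
  have h5 := (hu.dvd_mul_right).1 h4
  rw [← neg_sub, dvd_neg] at h5
  exact h5

end

end Pool.Agent.H427R3.ZT
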