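import Mathlib

/-! Project ZT, task (A): elements of trace one in a semi-global ring of an everywhere unramified
extension, described by valuation rings. -/

set_option autoImplicit false

namespace Pool.Agent.H427R3.ZT

variable {F K : Type*} [Field F] [Field K] [Algebra F K]

/-- The intersection of a family of valuation rings. -/
def RR (𝒱 : Set (ValuationSubring F)) : Subring F where
  carrier := {f | ∀ V ∈ 𝒱, f ∈ V}
  mul_mem' := fun ha hb V hV => mul_mem (ha V hV) (hb V hV)
  one_mem' := fun V _ => one_mem V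
  add_mem' := fun ha hb V hV => add_mem (ha V hV) (hb V hV)
  zero_mem' := fun V _ => zero_mem V
  neg_mem' := fun ha V hV => neg_mem (ha V hV)

theorem mem_RR {𝒱 : Set (ValuationSubring F)} {f : F} : f ∈ RR 𝒱 ↔ ∀ V ∈ 𝒱, f ∈ V := Iff.rfl

variable (K) in
/-- The intersection of the valuation rings of `K` above a family of valuation rings of `F`. -/
def BB (𝒱 : Set (ValuationSubring F)) : Subring K where
  carrier := {f | ∀ W : ValuationSubring K, W.comap (algebraMap F K) ∈ 𝒱 → f ∈ W}
  mul_mem' := fun ha hb V hV => mul_mem (ha V hV) (hb V hV)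
  one_mem' := fun V _ => one_mem V
  add_mem' := fun ha hb V hV => add_mem (ha V hV) (hb V hV)
  zero_mem' := fun V _ => zero_mem V
  neg_mem' := fun ha V hV => neg_mem (ha V hV)

theorem mem_BB {𝒱 : Set (ValuationSubring F)} {f : K} :
    f ∈ BB K 𝒱 ↔ ∀ W : ValuationSubring K, W.comap (algebraMap F K) ∈ 𝒱 → f ∈ W := Iff.rfl

theorem exists_comap (V : ValuationSubring F) :
    ∃ W : ValuationSubring K, W.comap (algebraMap F K) = V := by
  obtain ⟨W, hW, hloc⟩ := IsLocalRing.exists_factor_valuationRing ((algebraMap F K).comp V.subtype)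
  refine ⟨W, ?_⟩
  ext f
  rw [ValuationSubring.mem_comap]
  constructor
  · intro hf
    by_contra hfV
    have hinv : f⁻¹ ∈ V := (V.mem_or_inv_mem f).resolve_left hfV
    have hf0 : f ≠ 0 := by rintro rfl; exact hfV V.zero_mem
    have hu : IsUnit ((((algebraMap F K).comp V.subtype).codRestrict W.toSubring hW) ⟨f⁻¹, hinv⟩) := by
      refine IsUnit.of_mul_eq_one (⟨algebraMap F K f, hf⟩ : W.toSubring) ?_
      apply Subtype.ext
      change algebraMap F K f⁻¹ * algebraMap F K f = 1
      rw [← map_mul, inv_mul_cancel₀ hf0, map_one]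
    have h1 := hloc.map_nonunit _ hu
    obtain ⟨g, hg⟩ := isUnit_iff_exists_inv.1 h1
    have h2 : f⁻¹ * g.1 = 1 := congrArg Subtype.val hg
    have h3 : g.1 = f := by
      rw [inv_mul_eq_one₀ hf0] at h2
      exact h2.symm
    exact hfV (h3 ▸ g.2)
  · intro hf
    exact hW ⟨f, hf⟩

theorem algebraMap_mem_BB {𝒱 : Set (ValuationSubring F)} {f : F} :
    algebraMap F K f ∈ BB K 𝒱 ↔ f ∈ RR 𝒱 := by
  constructor
  · intro h V hV
    obtain ⟨W, rfl⟩ := exists_comap (K := K) V
    exact h W hV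
  · intro h W hW
    exact h _ hW

theorem comap_algEquiv (W : ValuationSubring K) (σ : K ≃ₐ[F] K) :
    (W.comap (σ : K →+* K)).comap (algebraMap F K) = W.comap (algebraMap F K) := by
  ext f
  simp [ValuationSubring.mem_comap]

theorem apply_mem_BB {𝒱 : Set (ValuationSubring F)} (σ : K ≃ₐ[F] K) {b : K} (hb : b ∈ BB K 𝒱) :
    σ b ∈ BB K 𝒱 := by
  intro W hW
  have := hb (W.comap (σ : K →+* K)) (by rwa [comap_algEquiv])
  simpa [ValuationSubring.mem_comap] using this

theorem val_lt_one_iff {L : Type*} [Field L] (V : ValuationSubring L) (y : L) (hy : y ≠ 0) :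
    V.valuation y < 1 ↔ y⁻¹ ∉ V := by
  rw [← V.valuation_le_one_iff, map_inv₀, not_le, one_lt_inv₀]
  exact zero_lt_iff.2 (by simpa using hy)

theorem val_lt_iff (W : ValuationSubring K) (x : F) :
    W.valuation (algebraMap F K x) < 1 ↔ (W.comap (algebraMap F K)).valuation x < 1 := by
  by_cases hx : x = 0
  · simp [hx]
  have hx' : algebraMap F K x ≠ 0 := by simpa using hx
  rw [val_lt_one_iff W _ hx', val_lt_one_iff _ x hx, ValuationSubring.mem_comap, map_inv₀]

theorem exists_common {𝒱 : Set (ValuationSubring F)} {V : ValuationSubring F}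
    (H1 : ∀ c ∈ V, ∃ s ∈ RR 𝒱, V.valuation s = 1 ∧ s * c ∈ RR 𝒱) (t : Finset ℕ) (q : ℕ → F)
    (hq : ∀ i ∈ t, q i ∈ V) : ∃ s ∈ RR 𝒱, V.valuation s = 1 ∧ ∀ i ∈ t, s * q i ∈ RR 𝒱 := by
  induction t using Finset.induction_on with
  | empty => exact ⟨1, one_mem _, map_one _, by simp⟩
  | insert a t ha ih =>
    obtain ⟨s, hs, hs1, hst⟩ := ih fun i hi => hq i (Finset.mem_insert_of_mem hi)
    obtain ⟨r, hr, hr1, hra⟩ := H1 _ (hq a (Finset.mem_insert_self _ _))
    refine ⟨r * s, mul_mem hr hs, by rw [map_mul, hr1, hs1, one_mul], ?_⟩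
    intro i hi
    rcases Finset.mem_insert.1 hi with rfl | hi
    · have : r * s * q i = s * (r * q i) := by ring
      rw [this]; exact mul_mem hs hra
    · rw [mul_assoc]; exact mul_mem hr (hst i hi)

theorem exists_frac [Algebra.IsAlgebraic F K] {𝒱 : Set (ValuationSubring F)}
    (H1 : ∀ V ∈ 𝒱, ∀ c ∈ V, ∃ s ∈ RR 𝒱, V.valuation s = 1 ∧ s * c ∈ RR 𝒱)
    {W : ValuationSubring K} (hW : W.comap (algebraMap F K) ∈ 𝒱) {a : K} (ha : a ∈ W) :
    ∃ s ∈ BB K 𝒱, a * s ∈ BB K 𝒱 ∧ W.valuation s = 1 := by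
  by_cases ha0 : a = 0
  · exact ⟨1, one_mem _, by rw [ha0, zero_mul]; exact zero_mem _, map_one _⟩
  set V := W.comap (algebraMap F K) with hV
  have hint : IsIntegral F a := Algebra.IsIntegral.isIntegral a
  set P := minpoly F a with hP
  have hP0 : P ≠ 0 := minpoly.ne_zero hint
  obtain ⟨j, hj, hmax⟩ := P.support.exists_max_image
    (fun i => toLex (V.valuation (P.coeff i), i)) (Polynomial.support_nonempty.2 hP0)
  have hcj : P.coeff j ≠ 0 := Polynomial.mem_support_iff.1 hj
  have hvj : V.valuation (P.coeff j) ≠ 0 := by simpa using hcj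
  have hmax' : ∀ i ∈ P.support, V.valuation (P.coeff i) < V.valuation (P.coeff j) ∨
      (V.valuation (P.coeff i) = V.valuation (P.coeff j) ∧ i ≤ j) := by
    intro i hi
    have := hmax i hi
    rwa [Prod.Lex.toLex_le_toLex] at this
  have hq : ∀ i ∈ P.support, P.coeff i / P.coeff j ∈ V := by
    intro i hi
    rw [← V.valuation_le_one_iff, map_div₀]
    apply div_le_one_of_le₀ _ zero_le
    rcases hmax' i hi with h | h
    · exact h.le
    · exact h.1.le
  obtain ⟨D, hD, hD1, hDq⟩ := exists_common (H1 V hW) P.support (fun i => P.coeff i / P.coeff j) hq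
  set e : ℕ → K := fun i => algebraMap F K (D * (P.coeff i / P.coeff j)) with he
  have heW : ∀ i ∈ P.support, ∀ W' : ValuationSubring K, W'.comap (algebraMap F K) ∈ 𝒱 → e i ∈ W' :=
    fun i hi W' hW' => hDq i hi _ hW'
  set S1 := P.support.filter (fun i => j ≤ i) with hS1
  set S2 := P.support.filter (fun i => ¬ j ≤ i) with hS2
  set s : K := ∑ i ∈ S1, e i * a ^ ((i : ℤ) - j) with hs
  set t : K := ∑ i ∈ S2, e i * a ^ ((i : ℤ) - j) with ht
  have hst : s + t = 0 := by
    rw [hs, ht, Finset.sum_filter_add_sum_filter_not]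
    have h1 : ∀ i ∈ P.support, e i * a ^ ((i : ℤ) - j) =
        (algebraMap F K D / algebraMap F K (P.coeff j) * (a ^ j)⁻¹) * (algebraMap F K (P.coeff i) * a ^ i) := by
      intro i _
      rw [he]
      simp only [map_mul, map_div₀]
      rw [zpow_sub₀ ha0, zpow_natCast, zpow_natCast]
      field_simp
    rw [Finset.sum_congr rfl h1, ← Finset.mul_sum]
    have h2 : ∑ i ∈ P.support, algebraMap F K (P.coeff i) * a ^ i = 0 := by
      have := minpoly.aeval F a
      rw [Polynomial.aeval_eq_sum_range, ← hP] at this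
      rw [← this, Finset.sum_subset (Polynomial.supp_subset_range_natDegree_succ)]
      · exact Finset.sum_congr rfl fun i _ => by rw [Algebra.smul_def]
      · intro i _ hi
        rw [Polynomial.notMem_support_iff.1 hi]; simp
    rw [h2, mul_zero]
  have hs' : s = -t := eq_neg_of_add_eq_zero_left hst
  have hmem : ∀ W' : ValuationSubring K, W'.comap (algebraMap F K) ∈ 𝒱 → s ∈ W' ∧ a * s ∈ W' := by
    intro W' hW'
    rcases W'.mem_or_inv_mem a with h | h
    · have h1 : s ∈ W' := by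
        refine sum_mem fun i hi => ?_
        obtain ⟨hi1, hi2⟩ := Finset.mem_filter.1 hi
        refine mul_mem (heW i hi1 W' hW') ?_
        have : (i : ℤ) - j = ((i - j : ℕ) : ℤ) := by omega
        rw [this, zpow_natCast]
        exact pow_mem h _
      exact ⟨h1, mul_mem h h1⟩
    · have key : ∀ i ∈ S2, e i * a ^ ((i : ℤ) - j) ∈ W' ∧ a * (e i * a ^ ((i : ℤ) - j)) ∈ W' := by
        intro i hi
        obtain ⟨hi1, hi2⟩ := Finset.mem_filter.1 hi
        have h0 : (i : ℤ) - j = -((j - i : ℕ) : ℤ) := by omega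
        have h1 : a ^ ((i : ℤ) - j) = a⁻¹ ^ (j - i) := by
          rw [h0, zpow_neg, zpow_natCast, inv_pow]
        have h2 : a * (e i * a ^ ((i : ℤ) - j)) = e i * a⁻¹ ^ (j - i - 1) := by
          have h3 : j - i = (j - i - 1) + 1 := by omega
          rw [h1, h3, pow_succ, Nat.add_sub_cancel]
          field_simp
        refine ⟨?_, ?_⟩
        · rw [h1]; exact mul_mem (heW i hi1 W' hW') (pow_mem h _)
        · rw [h2]; exact mul_mem (heW i hi1 W' hW') (pow_mem h _)
      rw [hs']
      refine ⟨neg_mem (sum_mem fun i hi => (key i hi).1), ?_⟩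
      rw [mul_neg, ht, Finset.mul_sum]
      exact neg_mem (sum_mem fun i hi => (key i hi).2)
  refine ⟨s, fun W' hW' => (hmem W' hW').1, fun W' hW' => (hmem W' hW').2, ?_⟩
  have hjS : j ∈ S1 := Finset.mem_filter.2 ⟨hj, le_rfl⟩
  rw [hs, ← Finset.add_sum_erase _ _ hjS]
  have hej : e j * a ^ ((j : ℤ) - j) = algebraMap F K D := by
    rw [he]; simp [hcj]
  have hlt : ∀ x : F, V.valuation x < 1 → W.valuation (algebraMap F K x) < 1 := fun x hx =>
    (val_lt_iff W x).2 hx
  have hWD : W.valuation (algebraMap F K D) = 1 := by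
    apply le_antisymm
    · rw [W.valuation_le_one_iff]
      exact hD _ hW
    · by_contra hc
      rw [not_le] at hc
      have := (val_lt_iff W D).1 hc
      rw [← hV, hD1] at this
      exact lt_irrefl _ this
  have hrest : W.valuation (∑ i ∈ S1.erase j, e i * a ^ ((i : ℤ) - j)) < 1 := by
    apply Valuation.map_sum_lt _ one_ne_zero
    intro i hi
    obtain ⟨hij, hi1⟩ := Finset.mem_erase.1 hi
    obtain ⟨hi2, hi3⟩ := Finset.mem_filter.1 hi1
    rw [map_mul]
    have h0 : (i : ℤ) - j = ((i - j : ℕ) : ℤ) := by omega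
    have h1 : W.valuation (a ^ ((i : ℤ) - j)) ≤ 1 := by
      rw [W.valuation_le_one_iff, h0, zpow_natCast]
      exact pow_mem ha _
    have h2 : W.valuation (e i) < 1 := by
      apply hlt
      rw [map_mul, hD1, one_mul, map_div₀, div_lt_one₀ (zero_lt_iff.2 hvj)]
      rcases hmax' i hi2 with h | h
      · exact h
      · omega
    exact mul_lt_one_of_lt_of_le h2 h1
  rw [hej, Valuation.map_add_eq_of_lt_left _ (by rw [hWD]; exact hrest), hWD]


section trace

variable [FiniteDimensional F K] [IsGalois F K]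

theorem trace_eq_sum (b : K) : algebraMap F K (Algebra.trace F K b) = ∑ s : K ≃ₐ[F] K, s b :=
  trace_eq_sum_automorphisms b

/-- local part: some element of `B` has trace a unit at `V`. -/
theorem exists_trace_unit {𝒱 : Set (ValuationSubring F)}
    (H1 : ∀ V ∈ 𝒱, ∀ c ∈ V, ∃ s ∈ RR 𝒱, V.valuation s = 1 ∧ s * c ∈ RR 𝒱)
    (H3 : ∀ W : ValuationSubring K, W.comap (algebraMap F K) ∈ 𝒱 → ∀ σ : K ≃ₐ[F] K,
      (∀ a ∈ W, W.valuation (σ a - a) < 1) → σ = 1)
    {V : ValuationSubring F} (hV : V ∈ 𝒱) :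
    ∃ b ∈ BB K 𝒱, ¬ V.valuation (Algebra.trace F K b) < 1 := by
  classical
  obtain ⟨W, rfl⟩ := exists_comap (K := K) V
  by_contra hc
  push Not at hc
  have hmem : ∀ (s : K ≃ₐ[F] K) (b : BB K 𝒱), s b.1 ∈ W := fun s b => apply_mem_BB s b.2 W hV
  let χ : (K ≃ₐ[F] K) → (BB K 𝒱 →* IsLocalRing.ResidueField W) := fun s =>
    { toFun := fun b => IsLocalRing.residue W ⟨s b.1, hmem s b⟩
      map_one' := by
        rw [← map_one (IsLocalRing.residue W)]
        congr 1
        apply Subtype.ext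
        simp
      map_mul' := fun a b => by
        rw [← map_mul]
        congr 1
        apply Subtype.ext
        simp }
  have hχ : ¬ Function.Injective χ := by
    intro hinj
    have hli := (linearIndependent_monoidHom (BB K 𝒱) (IsLocalRing.ResidueField W)).comp χ hinj
    rw [Fintype.linearIndependent_iff] at hli
    have := hli (fun _ => 1) (by
      ext b
      rw [Finset.sum_apply]
      simp only [Pi.smul_apply, Function.comp_apply, one_smul, Pi.zero_apply]
      change ∑ s : K ≃ₐ[F] K, IsLocalRing.residue W ⟨s b.1, hmem s b⟩ = 0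
      rw [← map_sum, IsLocalRing.residue_eq_zero_iff, ValuationSubring.valuation_lt_one_iff]
      have h1 := hc b.1 b.2
      rw [← val_lt_iff, trace_eq_sum] at h1
      convert h1
      push_cast
      rfl) 1
    exact one_ne_zero this
  rw [Function.Injective] at hχ
  push Not at hχ
  obtain ⟨s, t, hst, hne⟩ := hχ
  have hcong : ∀ b ∈ BB K 𝒱, W.valuation ((t * s⁻¹) b - b) < 1 := by
    intro b hb
    have h1 := DFunLike.congr_fun hst ⟨s⁻¹ b, apply_mem_BB s⁻¹ hb⟩
    change IsLocalRing.residue W ⟨s (s⁻¹ b), _⟩ = IsLocalRing.residue W ⟨t (s⁻¹ b), _⟩ at h1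
    rw [← sub_eq_zero, ← map_sub, IsLocalRing.residue_eq_zero_iff,
      ValuationSubring.valuation_lt_one_iff] at h1
    have h2 : s (s⁻¹ b) = b := by
      rw [← AlgEquiv.mul_apply, mul_inv_cancel, AlgEquiv.one_apply]
    have h3 : W.valuation (s (s⁻¹ b) - t (s⁻¹ b)) < 1 := h1
    rw [h2, Valuation.map_sub_swap] at h3
    exact h3
  have hσ : t * s⁻¹ = 1 := by
    apply H3 W hV
    intro a ha
    set σ := t * s⁻¹ with hσ
    obtain ⟨r, hr, har, hr1⟩ := exists_frac H1 hV ha
    have hr0 : r ≠ 0 := by rintro rfl; simp at hr1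
    have h1 := hcong r hr
    have h2 := hcong _ har
    have hσr : W.valuation (σ r) = 1 := by
      have : σ r = r + (σ r - r) := by ring
      rw [this, Valuation.map_add_eq_of_lt_left _ (by rw [hr1]; exact h1), hr1]
    have hσr0 : σ r ≠ 0 := by simpa using hr0
    have h3 : σ a - a = ((σ (a * r) - a * r) - a * (σ r - r)) * (σ r)⁻¹ := by
      rw [map_mul]; field_simp; ring
    rw [h3, map_mul, map_inv₀, hσr, inv_one, mul_one]
    refine (Valuation.map_sub _ _ _).trans_lt (max_lt h2 ?_)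
    rw [map_mul, mul_comm]
    exact mul_lt_one_of_lt_of_le h1 ((W.valuation_le_one_iff a).2 ha)
  exact hne (by rw [mul_inv_eq_one] at hσ; exact hσ.symm)

/-- (A) elements of trace one. -/
theorem exists_trace_one {𝒱 : Set (ValuationSubring F)}
    (H1 : ∀ V ∈ 𝒱, ∀ c ∈ V, ∃ s ∈ RR 𝒱, V.valuation s = 1 ∧ s * c ∈ RR 𝒱)
    (H2 : ∀ V : ValuationSubring F, RR 𝒱 ≤ V.toSubring → V ≠ ⊤ → V ∈ 𝒱)
    (H3 : ∀ W : ValuationSubring K, W.comap (algebraMap F K) ∈ 𝒱 → ∀ σ : K ≃ₐ[F] K,
      (∀ a ∈ W, W.valuation (σ a - a) < 1) → σ = 1) :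
    ∃ b ∈ BB K 𝒱, Algebra.trace F K b = 1 := by
  classical
  have htr : ∀ b ∈ BB K 𝒱, Algebra.trace F K b ∈ RR 𝒱 := by
    intro b hb
    rw [← algebraMap_mem_BB (K := K), trace_eq_sum]
    exact sum_mem fun s _ => apply_mem_BB s hb
  let I : Ideal (RR 𝒱) :=
    { carrier := {r | ∃ b ∈ BB K 𝒱, Algebra.trace F K b = r.1}
      add_mem' := by
        rintro a b ⟨x, hx, hxa⟩ ⟨y, hy, hyb⟩
        exact ⟨x + y, add_mem hx hy, by rw [map_add, hxa, hyb]; rfl⟩
      zero_mem' := ⟨0, zero_mem _, by simp⟩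
      smul_mem' := by
        rintro c a ⟨x, hx, hxa⟩
        refine ⟨algebraMap F K c.1 * x, mul_mem (algebraMap_mem_BB.2 c.2) hx, ?_⟩
        rw [← Algebra.smul_def, map_smul, hxa]
        rfl }
  by_cases hI : I = ⊤
  · have : (1 : RR 𝒱) ∈ I := by rw [hI]; trivial
    obtain ⟨b, hb, hb1⟩ := this
    exact ⟨b, hb, hb1⟩
  exfalso
  obtain ⟨V, hV1, hV2⟩ := Ideal.image_subset_nonunits_valuationSubring I hI
  have key : ∀ b ∈ BB K 𝒱, V.valuation (Algebra.trace F K b) < 1 := by
    intro b hb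
    have h1 : Algebra.trace F K b ∈ V.nonunits :=
      hV2 ⟨⟨_, htr b hb⟩, ⟨b, hb, rfl⟩, rfl⟩
    exact V.mem_nonunits_iff.1 h1
  by_cases hVtop : V = ⊤
  · by_cases hne : 𝒱.Nonempty
    · obtain ⟨V', hV'⟩ := hne
      obtain ⟨b, hb, hb'⟩ := exists_trace_unit H1 H3 hV'
      have h1 := key b hb
      by_cases h0 : Algebra.trace F K b = 0
      · rw [h0] at hb'; simp at hb'
      · rw [val_lt_one_iff _ _ h0, hVtop] at h1
        exact h1 trivial
    · obtain ⟨b, hb⟩ := Algebra.trace_surjective F K 1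
      have h1 := key b (fun W hW => (hne ⟨_, hW⟩).elim)
      rw [hb, map_one] at h1
      exact lt_irrefl _ h1
  · obtain ⟨b, hb, hb'⟩ := exists_trace_unit H1 H3 (H2 V hV1 hVtop)
    exact hb' (key b hb)

end trace

end Pool.Agent.H427R3.ZT
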