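import Pool.Agent.H525R3.FFp.Riemann
import Pool.Agent.H707R3.PlacesFin
import Pool.Agent.H427R3.ZT.Val

/-! Project ZT, task (A): existence of functions from Riemann's theorem, and valuation rings are
places. -/

set_option autoImplicit false
set_option linter.all false

open Module IsDedekindDomain IntermediateField FF Pool.Agent.H525R3.FFp

namespace Pool.Agent.H427R3.ZT

variable {k F : Type*} [Field k] [Field F] [Algebra k F] [PerfectField k] [IsFF k F]

/-- A valuation ring containing the constants and different from `F` comes from a place. -/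
theorem exists_place_O (V : ValuationSubring F) (hk : ∀ a : k, algebraMap k F a ∈ V) (hV : V ≠ ⊤) :
    ∃ v : FF.Place k F, v.O = V := by
  let v : H707R3.Place k F := ⟨V, hk, hV⟩
  obtain ⟨D, hD⟩ : ∃ D : H707R3.DedModel k F, ∀ b ∈ D.B, b ∈ v.ring := by
    obtain ⟨t, ht, hsep⟩ := exists_sep (k := k) (K := F)
    have hfd : FiniteDimensional k⟮t⟯ F := IsFF.finite ht
    rcases v.ring.mem_or_inv_mem t with h1 | h1
    · obtain ⟨D, hD⟩ := H707R3.exists_dedModel t ht
      exact ⟨D, hD v h1⟩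
    · have ht' : Transcendental k t⁻¹ := by
        intro hcon
        apply ht
        have := hcon.inv
        rwa [inv_inv] at this
      have hfd' : FiniteDimensional k⟮t⁻¹⟯ F := by
        rw [H707R3.adjoin_inv_eq]
        exact hfd
      have hsep' : Algebra.IsSeparable k⟮t⁻¹⟯ F := by
        rw [H707R3.adjoin_inv_eq]
        exact hsep
      obtain ⟨D', hD'⟩ := H707R3.exists_dedModel t⁻¹ ht'
      exact ⟨D', hD' v h1⟩
  have := D.ded
  have := D.frac
  refine ⟨FF.placeOf (k := k) (L := F) (D.hos v hD), ?_⟩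
  ext x
  change _ ↔ x ∈ v.ring
  rw [D.mem_ring_iff v hD x]
  by_cases hx : x = 0
  · subst hx
    simp
  · rw [← FF.placeOf_nonneg (k := k) (L := F) (D.hos v hD) hx]
    exact FF.Place.reg_iff _ hx

/-- For large divisors there are functions with exactly the allowed order at a given place. -/
theorem exists_exact (v : FF.Place k F) : ∃ N : ℤ, ∀ D : FF.Place k F →₀ ℤ, N ≤ ddeg D →
    ∃ s : F, s ≠ 0 ∧ (∀ P : FF.Place k F, - D P ≤ P.ord s) ∧ v.ord s = - D v := by
  obtain ⟨γ, N, h1, h2⟩ := riemann k F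
  refine ⟨N + v.deg, fun D hD => ?_⟩
  have hv := deg_pos v
  have h3 := h2 D (by omega)
  have h4 : ddeg (D - Finsupp.single v 1) = ddeg D - v.deg := by
    rw [ddeg_sub, ddeg_single, one_mul]
  have h5 := h2 (D - Finsupp.single v 1) (by rw [h4]; omega)
  have h6 : ¬ LL D ≤ LL (D - Finsupp.single v 1) := by
    intro hle
    have h7 : LL (D - Finsupp.single v 1) = LL D := by
      apply le_antisymm _ hle
      apply LL_mono
      rw [sub_le_self_iff]
      exact Finsupp.single_nonneg.2 (by norm_num)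
    have h8 : ell (D - Finsupp.single v 1) = ell D := by unfold ell; rw [h7]
    rw [h8, h3, h4] at h5
    omega
  obtain ⟨s, hs, hs'⟩ := SetLike.not_le_iff_exists.1 h6
  have hs0 : s ≠ 0 := by rintro rfl; exact hs' (zero_mem _)
  rw [mem_LL] at hs hs'
  push Not at hs'
  have h9 := hs.resolve_left hs0
  obtain ⟨P, hP⟩ := hs'.2
  refine ⟨s, hs0, h9, ?_⟩
  by_cases hPv : P = v
  · subst hPv
    simp only [Finsupp.coe_sub, Pi.sub_apply, Finsupp.single_eq_same] at hP
    have := h9 P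
    omega
  · simp only [Finsupp.coe_sub, Pi.sub_apply, Finsupp.single_eq_of_ne hPv] at hP
    have := h9 P
    omega

theorem exists_denom {T : Finset (FF.Place k F)} (hT : T.Nonempty) {v : FF.Place k F} (hv : v ∉ T)
    {c : F} (hc : v.Reg c) : ∃ s : F, s ≠ 0 ∧ v.ord s = 0 ∧ ∀ P ∉ T, P.Reg s ∧ P.Reg (s * c) := by
  classical
  by_cases hc0 : c = 0
  · subst hc0
    exact ⟨1, one_ne_zero, v.ord_one, fun P _ => ⟨P.reg_one, by rw [mul_zero]; exact P.reg_zero⟩⟩
  obtain ⟨t, ht⟩ := hT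
  obtain ⟨N, hN⟩ := exists_exact v
  have htd := deg_pos t
  set m : ℕ := (N + ddeg (polar (k := k) c)).toNat with hm
  obtain ⟨s, hs0, hs1, hs2⟩ := hN (Finsupp.single t (m : ℤ) - polar (k := k) c) (by
    rw [ddeg_sub, ddeg_single]
    have : (m : ℤ) * 1 ≤ m * t.deg := mul_le_mul_of_nonneg_left (by omega) (by positivity)
    omega)
  have hvt : v ≠ t := fun h => hv (h ▸ ht)
  refine ⟨s, hs0, ?_, ?_⟩
  · rw [hs2, Finsupp.sub_apply, Finsupp.single_eq_of_ne hvt, polar_apply]
    have := (v.reg_iff hc0).1 hc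
    rw [max_eq_right (by omega)]
    simp
  · intro P hP
    have hPt : P ≠ t := fun h => hP (h ▸ ht)
    have h1 := hs1 P
    rw [Finsupp.sub_apply, Finsupp.single_eq_of_ne hPt, polar_apply] at h1
    have h2 := le_max_left (-P.ord c) 0
    have h3 := le_max_right (-P.ord c) 0
    refine ⟨(P.reg_iff hs0).2 (by omega), (P.reg_iff (mul_ne_zero hs0 hc0)).2 ?_⟩
    rw [P.ord_mul hs0 hc0]
    omega

theorem exists_pole {T : Finset (FF.Place k F)} {t : FF.Place k F} (ht : t ∈ T) :
    ∃ x : F, ¬ t.Reg x ∧ ∀ P ∉ T, P.Reg x := by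
  classical
  obtain ⟨N, hN⟩ := exists_exact t
  have htd := deg_pos t
  set m : ℕ := N.toNat + 1 with hm
  obtain ⟨s, hs0, hs1, hs2⟩ := hN (Finsupp.single t (m : ℤ)) (by
    rw [ddeg_single]
    have : (m : ℤ) * 1 ≤ m * t.deg := mul_le_mul_of_nonneg_left (by omega) (by positivity)
    omega)
  refine ⟨s, ?_, ?_⟩
  · rw [t.reg_iff hs0, hs2, Finsupp.single_eq_same]
    omega
  · intro P hP
    have hPt : P ≠ t := fun h => hP (h ▸ ht)
    have h1 := hs1 P
    rw [Finsupp.single_eq_of_ne hPt] at h1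
    exact (P.reg_iff hs0).2 (by omega)

/-- The valuation rings of the places outside `T`. -/
def VV (T : Finset (FF.Place k F)) : Set (ValuationSubring F) := {V | ∃ v ∉ T, v.O = V}

theorem mem_RR_VV {T : Finset (FF.Place k F)} {f : F} : f ∈ RR (VV T) ↔ ∀ v ∉ T, v.Reg f := by
  constructor
  · intro h v hv
    exact h _ ⟨v, hv, rfl⟩
  · rintro h _ ⟨v, hv, rfl⟩
    exact h v hv

theorem val_eq_one_iff (v : FF.Place k F) {s : F} (hs0 : s ≠ 0) (hs : v.ord s = 0) :
    v.O.valuation s = 1 := by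
  apply le_antisymm
  · rw [ValuationSubring.valuation_le_one_iff]
    exact (v.reg_iff hs0).2 hs.ge
  · by_contra hc
    rw [not_le, val_lt_one_iff _ _ hs0] at hc
    apply hc
    exact (v.reg_iff (inv_ne_zero hs0)).2 (by rw [v.ord_inv]; omega)

theorem VV_H1 {T : Finset (FF.Place k F)} (hT : T.Nonempty) : ∀ V ∈ VV T, ∀ c ∈ V,
    ∃ s ∈ RR (VV T), V.valuation s = 1 ∧ s * c ∈ RR (VV T) := by
  rintro _ ⟨v, hv, rfl⟩ c hc
  obtain ⟨s, hs0, hs1, hs2⟩ := exists_denom hT hv hc
  exact ⟨s, mem_RR_VV.2 fun P hP => (hs2 P hP).1, val_eq_one_iff v hs0 hs1,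
    mem_RR_VV.2 fun P hP => (hs2 P hP).2⟩

theorem VV_H2 {T : Finset (FF.Place k F)} : ∀ V : ValuationSubring F, RR (VV T) ≤ V.toSubring →
    V ≠ ⊤ → V ∈ VV T := by
  intro V hV hne
  obtain ⟨v, hv⟩ := exists_place_O (k := k) V
    (fun a => hV (mem_RR_VV.2 fun P _ => P.reg_const a)) hne
  refine ⟨v, ?_, hv⟩
  intro hvT
  obtain ⟨x, hx1, hx2⟩ := exists_pole hvT
  apply hx1
  have : x ∈ V := hV (mem_RR_VV.2 hx2)
  rw [← hv] at this
  exact this

end Pool.Agent.H427R3.ZT
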